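import Mathlib

namespace Pool.Agent.Results.MP_adcce9_an.NoCopy

open Filter Topology ZeroAtInfty

/-- Finitely supported real sequences, to be normed using `θ`. -/
def C00 (_θ : ℕ → ℚ) : Type := ℕ →₀ ℝ

/-- The combinatorial norm: supremum of the mass on finite sets where `θ` increases. -/
noncomputable def nrm (θ : ℕ → ℚ) (x : ℕ →₀ ℝ) : ℝ :=
  ⨆ F : {F : Finset ℕ // StrictMonoOn θ F}, ∑ i ∈ F.1, |x i|

variable {θ : ℕ → ℚ}

instance : Nonempty {F : Finset ℕ // StrictMonoOn θ F} := ⟨⟨∅, fun _ h => by simp at h⟩⟩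

theorem bdd (x : ℕ →₀ ℝ) :
    BddAbove (Set.range fun F : {F : Finset ℕ // StrictMonoOn θ F} => ∑ i ∈ F.1, |x i|) := by
  refine ⟨∑ i ∈ x.support, |x i|, ?_⟩
  rintro _ ⟨F, rfl⟩
  calc ∑ i ∈ F.1, |x i| ≤ ∑ i ∈ F.1 ∪ x.support, |x i| :=
        Finset.sum_le_sum_of_subset_of_nonneg Finset.subset_union_left fun _ _ _ => abs_nonneg _
    _ = ∑ i ∈ x.support, |x i| := (Finset.sum_subset Finset.subset_union_right fun i _ hi => by
        simpa using hi).symm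

theorem le_nrm (x : ℕ →₀ ℝ) {F : Finset ℕ} (hF : StrictMonoOn θ F) :
    ∑ i ∈ F, |x i| ≤ nrm θ x := le_ciSup (bdd x) ⟨F, hF⟩

theorem abs_le_nrm (x : ℕ →₀ ℝ) (i : ℕ) : |x i| ≤ nrm θ x := by
  simpa using le_nrm (θ := θ) x (F := {i}) (by simp)

theorem nrm_zero : nrm θ 0 = 0 := by simp [nrm]

theorem nrm_add (x y : ℕ →₀ ℝ) : nrm θ (x + y) ≤ nrm θ x + nrm θ y :=
  ciSup_le fun F => by
    refine le_trans ?_ (add_le_add (le_nrm x F.2) (le_nrm y F.2))
    rw [← Finset.sum_add_distrib]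
    exact Finset.sum_le_sum fun i _ => abs_add_le _ _

theorem nrm_neg (x : ℕ →₀ ℝ) : nrm θ (-x) = nrm θ x := by simp [nrm]

theorem nrm_eq_zero (x : ℕ →₀ ℝ) (h : nrm θ x = 0) : x = 0 := by
  ext i
  exact abs_nonpos_iff.mp (h ▸ abs_le_nrm x i)

theorem nrm_smul (c : ℝ) (x : ℕ →₀ ℝ) : nrm θ (c • x) ≤ ‖c‖ * nrm θ x :=
  ciSup_le fun F => by
    simp only [Finsupp.smul_apply, smul_eq_mul, abs_mul, ← Finset.mul_sum]
    exact mul_le_mul_of_nonneg_left (le_nrm x F.2) (abs_nonneg c)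

noncomputable instance instACG : AddCommGroup (C00 θ) := (inferInstance : AddCommGroup (ℕ →₀ ℝ))
noncomputable instance instMod : Module ℝ (C00 θ) := (inferInstance : Module ℝ (ℕ →₀ ℝ))

/-- The norm as a bundled group norm. -/
noncomputable def gn (θ : ℕ → ℚ) : AddGroupNorm (C00 θ) :=
  ⟨⟨nrm θ, nrm_zero, nrm_add, nrm_neg⟩, nrm_eq_zero⟩

noncomputable instance instNACG : NormedAddCommGroup (C00 θ) := (gn θ).toNormedAddCommGroup
noncomputable instance instNS : NormedSpace ℝ (C00 θ) := ⟨nrm_smul⟩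

/-- The space `X_θ`. -/
abbrev XS (θ : ℕ → ℚ) : Type := UniformSpace.Completion (C00 θ)

theorem half (x y w z : ℕ →₀ ℝ) (N : ℕ) {ε : ℝ} {C D : Finset ℕ} (hC : StrictMonoOn θ C)
    (hD : StrictMonoOn θ D) (hx : ∀ i, N ≤ i → x i = 0) (hy : ∀ i, N ≤ i → y i = 0)
    (hw : ∑ i ∈ Finset.range N, |w i| ≤ ε) (hz : ∑ i ∈ Finset.range N, |z i| ≤ ε)
    (h : ∀ c ∈ C, ∀ d ∈ D, c < N → N ≤ d → θ c < θ d) :
    ∑ i ∈ C, |(x + w) i| - nrm θ w + ∑ i ∈ D, |(y + z) i| - nrm θ y - 3 * ε ≤ nrm θ (x + z) := by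
  have sub : ∀ (v : ℕ →₀ ℝ) (F : Finset ℕ), ∑ i ∈ Finset.range N, |v i| ≤ ε →
      ∑ i ∈ F.filter (· < N), |v i| ≤ ε := fun v F hv =>
    le_trans (Finset.sum_le_sum_of_subset_of_nonneg (fun i hi => by
      simpa using (Finset.mem_filter.mp hi).2) fun _ _ _ => abs_nonneg _) hv
  have mono : ∀ {F : Finset ℕ} (p : ℕ → Prop) [DecidablePred p], StrictMonoOn θ F →
      StrictMonoOn θ (F.filter p) := fun p _ hF => hF.mono (Finset.coe_subset.mpr (Finset.filter_subset _ _))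
  have hU : StrictMonoOn θ (C.filter (· < N) ∪ D.filter (fun i => ¬ i < N) : Finset ℕ) := by
    intro a ha b hb hab
    simp only [Finset.coe_union, Finset.coe_filter, Set.mem_union, Set.mem_ofPred_eq] at ha hb
    rcases ha with ha | ha <;> rcases hb with hb | hb
    · exact hC ha.1 hb.1 hab
    · exact h a ha.1 b hb.1 ha.2 (by omega)
    · omega
    · exact hD ha.1 hb.1 hab
  have h0 := le_nrm (x + z) hU
  rw [Finset.sum_union (by
    rw [Finset.disjoint_left]; intro a ha hb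
    exact (Finset.mem_filter.mp hb).2 (Finset.mem_filter.mp ha).2)] at h0
  rw [← Finset.sum_filter_add_sum_filter_not C (· < N),
    ← Finset.sum_filter_add_sum_filter_not D (· < N)]
  have a1 : ∑ i ∈ C.filter (· < N), |(x + w) i| ≤ ∑ i ∈ C.filter (· < N), |(x + z) i| +
      (∑ i ∈ C.filter (· < N), |w i| + ∑ i ∈ C.filter (· < N), |z i|) := by
    rw [← Finset.sum_add_distrib, ← Finset.sum_add_distrib]
    refine Finset.sum_le_sum fun i _ => ?_
    simp only [Finsupp.add_apply]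
    have := abs_add_le (x i + z i) (w i - z i)
    have h2 := abs_sub (w i) (z i)
    rw [show x i + z i + (w i - z i) = x i + w i by ring] at this
    linarith
  have a2 : ∑ i ∈ C.filter (fun i => ¬ i < N), |(x + w) i| ≤ nrm θ w := by
    refine le_trans (le_of_eq (Finset.sum_congr rfl fun i hi => ?_)) (le_nrm w (mono _ hC))
    rw [Finsupp.add_apply, hx i (by simpa using (Finset.mem_filter.mp hi).2), zero_add]
  have a3 : ∑ i ∈ D.filter (· < N), |(y + z) i| ≤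
      ∑ i ∈ D.filter (· < N), |y i| + ∑ i ∈ D.filter (· < N), |z i| := by
    rw [← Finset.sum_add_distrib]
    exact Finset.sum_le_sum fun i _ => abs_add_le _ _
  have a4 : ∑ i ∈ D.filter (fun i => ¬ i < N), |(y + z) i| =
      ∑ i ∈ D.filter (fun i => ¬ i < N), |(x + z) i| := Finset.sum_congr rfl fun i hi => by
    have : N ≤ i := by simpa using (Finset.mem_filter.mp hi).2
    rw [Finsupp.add_apply, Finsupp.add_apply, hx i this, hy i this]
  have a5 := le_nrm y (mono (· < N) hD)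
  have := sub w C hw
  have := sub z C hz
  have := sub z D hz
  linarith

theorem splice (x y w z : ℕ →₀ ℝ) (N : ℕ) {ε : ℝ} (hε : 0 < ε)
    (hx : ∀ i, N ≤ i → x i = 0) (hy : ∀ i, N ≤ i → y i = 0)
    (hw : ∑ i ∈ Finset.range N, |w i| ≤ ε) (hz : ∑ i ∈ Finset.range N, |z i| ≤ ε) :
    nrm θ (x + w) - nrm θ w + nrm θ (y + z) - nrm θ y - 5 * ε ≤ nrm θ (x + z) ∨
    nrm θ (y + z) - nrm θ z + nrm θ (x + w) - nrm θ x - 5 * ε ≤ nrm θ (y + w) := by
  obtain ⟨⟨C, hC⟩, h1⟩ := exists_lt_of_lt_ciSup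
    (show nrm θ (x + w) - ε < nrm θ (x + w) by linarith)
  obtain ⟨⟨D, hD⟩, h2⟩ := exists_lt_of_lt_ciSup
    (show nrm θ (y + z) - ε < nrm θ (y + z) by linarith)
  simp only at h1 h2
  by_cases h : ∀ c ∈ C, ∀ d ∈ D, c < N → N ≤ d → θ c < θ d
  · left
    have := half x y w z N hC hD hx hy hw hz h
    linarith
  · right
    push Not at h
    obtain ⟨c, hc, d, hd, h3, h4, h5⟩ := h
    have := half y x z w N hD hC hy hx hz hw (fun d' hd' c' hc' h6 h7 =>
      ((hD hd' hd (by omega)).trans_le h5).trans (hC hc hc' (by omega)))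
    linarith

theorem pigeon (u : ℕ → ℕ →₀ ℝ) (hu : ∀ n, nrm θ (u n) ≤ 2) (N : ℕ) {ε : ℝ} (hε : 0 < ε) :
    ∃ i j, i ≠ j ∧ ∑ k ∈ Finset.range N, |(u i - u j) k| ≤ ε := by
  obtain ⟨a, -, φ, hφ, ha⟩ := tendsto_subseq_of_bounded
    (Metric.isBounded_closedBall (x := (0 : Fin N → ℝ)) (r := 2))
    (x := fun n (k : Fin N) => u n k) (fun n => by
      rw [mem_closedBall_zero_iff, pi_norm_le_iff_of_nonneg two_pos.le]
      exact fun k => (abs_le_nrm _ _).trans (hu n))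
  have h1 : Tendsto (fun n => ∑ k : Fin N, |u (φ n) k - u (φ (n + 1)) k|) atTop
      (𝓝 (∑ k : Fin N, |a k - a k|)) := by
    refine tendsto_finsetSum _ fun k _ => Tendsto.abs (Tendsto.sub ?_ ?_)
    · exact tendsto_pi_nhds.mp ha k
    · exact (tendsto_pi_nhds.mp ha k).comp (tendsto_add_atTop_nat 1)
  simp only [sub_self, abs_zero, Finset.sum_const_zero] at h1
  obtain ⟨n, hn⟩ := (h1.eventually (gt_mem_nhds hε)).exists
  refine ⟨φ n, φ (n + 1), (hφ (Nat.lt_succ_self n)).ne, ?_⟩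
  rw [Finset.sum_range]
  exact hn.le

theorem core (x y : XS θ) (p q : ℕ → XS θ) (hx : ‖x‖ ≤ 1) (hy : ‖y‖ ≤ 1)
    (hp : ∀ n, ‖p n‖ ≤ 1) (hq : ∀ n, ‖q n‖ ≤ 1)
    (h : ∀ i j, i ≠ j → ‖p i - p j‖ ≤ 1 ∧ ‖q i - q j‖ ≤ 1 ∧ 2 ≤ ‖x + (p i - p j)‖ ∧
      2 ≤ ‖y + (q i - q j)‖ ∧ ‖x + (q i - q j)‖ ≤ 1 ∧ ‖y + (p i - p j)‖ ≤ 1) : False := by
  have ap : ∀ v : XS θ, ∃ a : C00 θ, ‖v - a‖ < 1 / 100 := fun v => by
    obtain ⟨a, ha⟩ := UniformSpace.Completion.denseRange_coe.exists_dist_lt v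
      (show (0 : ℝ) < 1 / 100 by norm_num)
    exact ⟨a, by rwa [dist_eq_norm] at ha⟩
  choose A hA using ap
  have cl : ∀ (v : XS θ) (a : C00 θ) (r : ℝ), ‖v - a‖ ≤ r →
      nrm θ a ≤ ‖v‖ + r ∧ ‖v‖ ≤ nrm θ a + r := fun v a r hr => by
    have e : ‖(a : XS θ)‖ = nrm θ a := UniformSpace.Completion.norm_coe a
    have := abs_le.mp ((abs_norm_sub_norm_le v a).trans hr)
    constructor <;> linarith [this.1, this.2]
  have two : ∀ u v : XS θ, ‖u - v - (A u - A v : C00 θ)‖ ≤ 2 / 100 := fun u v => by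
    rw [UniformSpace.Completion.coe_sub,
      show u - v - ((A u : XS θ) - A v) = (u - A u) - (v - A v) by abel]
    linarith [norm_sub_le (u - A u) (v - A v), hA u, hA v]
  have three : ∀ t u v : XS θ, ‖t + (u - v) - (A t + (A u - A v) : C00 θ)‖ ≤ 3 / 100 :=
    fun t u v => by
    rw [UniformSpace.Completion.coe_add, show t + (u - v) - ((A t : XS θ) + (A u - A v : C00 θ)) =
      (t - A t) + (u - v - (A u - A v : C00 θ)) by abel]
    linarith [norm_add_le (t - A t) (u - v - (A u - A v : C00 θ)), hA t, two u v]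
  obtain ⟨N, hN⟩ := (Finsupp.support (A x) ∪ Finsupp.support (A y)).bddAbove
  have hs : ∀ (v : ℕ →₀ ℝ), v.support ⊆ Finsupp.support (A x) ∪ Finsupp.support (A y) →
      ∀ i, N + 1 ≤ i → v i = 0 := fun v hv i hi => by
    by_contra hc
    have := hN (hv (Finsupp.mem_support_iff.mpr hc))
    omega
  obtain ⟨i, j, hij, h1⟩ := pigeon (θ := θ) (fun n => A (p n))
    (fun n => by linarith [(cl _ _ _ (hA (p n)).le).1, hp n]) (N + 1)
    (show (0 : ℝ) < 1 / 100 by norm_num)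
  obtain ⟨k, l, hkl, h2⟩ := pigeon (θ := θ) (fun n => A (q n))
    (fun n => by linarith [(cl _ _ _ (hA (q n)).le).1, hq n]) (N + 1)
    (show (0 : ℝ) < 1 / 100 by norm_num)
  obtain ⟨a1, -, a3, -, -, a6⟩ := h i j hij
  obtain ⟨-, b2, -, b4, b5, -⟩ := h k l hkl
  have c1 := (cl _ _ _ (hA x).le).1
  have c2 := (cl _ _ _ (hA y).le).1
  have c3 := (cl _ _ _ (two (p i) (p j))).1
  have c4 := (cl _ _ _ (two (q k) (q l))).1
  have c5 := (cl _ _ _ (three x (p i) (p j))).2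
  have c6 := (cl _ _ _ (three y (q k) (q l))).2
  have c7 := (cl _ _ _ (three x (q k) (q l))).1
  have c8 := (cl _ _ _ (three y (p i) (p j))).1
  rcases splice (θ := θ) (A x) (A y) _ _ (N + 1) (show (0 : ℝ) < 1 / 100 by norm_num)
    (hs _ Finset.subset_union_left) (hs _ Finset.subset_union_right) h1 h2 with h | h
  · have h' : nrm θ (A x + (A (p i) - A (p j)) : C00 θ) - nrm θ (A (p i) - A (p j) : C00 θ) +
      nrm θ (A y + (A (q k) - A (q l)) : C00 θ) - nrm θ (A y) - 5 * (1 / 100) ≤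
      nrm θ (A x + (A (q k) - A (q l)) : C00 θ) := h
    linarith
  · have h' : nrm θ (A y + (A (q k) - A (q l)) : C00 θ) - nrm θ (A (q k) - A (q l) : C00 θ) +
      nrm θ (A x + (A (p i) - A (p j)) : C00 θ) - nrm θ (A x) - 5 * (1 / 100) ≤
      nrm θ (A y + (A (p i) - A (p j)) : C00 θ) := h
    linarith

abbrev L1 := lp (fun _ : ℕ => ℝ) 1

noncomputable def e (n : ℕ) : L1 := lp.single 1 n (1 / 2 : ℝ)
noncomputable def e0 : L1 := lp.single 1 0 (1 : ℝ)

theorem ne (n : ℕ) : ‖e n‖ = 1 / 2 := by rw [e, lp.norm_single (by norm_num)]; norm_num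
theorem ne0 : ‖e0‖ = 1 := by rw [e0, lp.norm_single (by norm_num)]; norm_num
theorem nd (i j : ℕ) : ‖e i - e j‖ ≤ 1 := by linarith [norm_sub_le (e i) (e j), ne i, ne j]
theorem n2 {i j : ℕ} (h : i ≠ j) : 2 ≤ ‖e0 + (e (i + 1) - e (j + 1))‖ := by
  have := lp.sum_rpow_le_norm_rpow (p := 1) (by norm_num) (e0 + (e (i + 1) - e (j + 1)))
    {0, i + 1, j + 1}
  rw [Finset.sum_insert (by simp), Finset.sum_pair (by omega)] at this
  simp [e, e0, h, h.symm] at this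
  simp only [e, e0, one_div]
  linarith

noncomputable def c (n : ℕ) : C₀(ℕ, ℝ) where
  toFun := Pi.single n 1
  continuous_toFun := continuous_of_discreteTopology
  zero_at_infty' := by
    rw [Filter.cocompact_eq_cofinite]
    refine tendsto_const_nhds.congr' ?_
    filter_upwards [(Set.finite_singleton n).compl_mem_cofinite] with k hk
    exact (Pi.single_eq_of_ne (M := fun _ => ℝ) hk _).symm

theorem c_apply (n k : ℕ) : c n k = if k = n then 1 else 0 := Pi.single_apply _ _ _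

theorem c_le (f : C₀(ℕ, ℝ)) (h : ∀ k, |f k| ≤ 1) : ‖f‖ ≤ 1 := by
  rw [← ZeroAtInftyContinuousMap.norm_toBCF_eq_norm]
  exact (BoundedContinuousFunction.norm_le one_pos.le).mpr h

theorem c_ge (f : C₀(ℕ, ℝ)) (k : ℕ) : |f k| ≤ ‖f‖ := by
  rw [← ZeroAtInftyContinuousMap.norm_toBCF_eq_norm]
  exact f.toBCF.norm_coe_le_norm k

theorem result (θ : ℕ → ℚ) :
    IsEmpty ((lp (fun _ : ℕ => ℝ) 1 × lp (fun _ : ℕ => ℝ) 1) →ₗᵢ[ℝ] XS θ) ∧
    IsEmpty (WithLp 1 (C₀(ℕ, ℝ) × C₀(ℕ, ℝ)) →ₗᵢ[ℝ] XS θ) := by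
  refine ⟨⟨fun T => ?_⟩, ⟨fun T => ?_⟩⟩
  · refine core (T (e0, 0)) (T (0, e0)) (fun n => T (e (n + 1), 0)) (fun n => T (0, e (n + 1)))
      (by simp [ne0]) (by simp [ne0]) (fun n => by simp [ne]; norm_num)
      (fun n => by simp [ne]; norm_num) fun i j hij => ?_
    simp only [← map_sub, ← map_add, LinearIsometry.norm_map, Prod.mk_sub_mk, Prod.mk_add_mk,
      Prod.norm_mk, sub_self, norm_zero, add_zero, zero_add, max_le_iff, le_max_iff, ne0]
    simp [nd, n2 hij]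
  · have nn : ∀ a b : C₀(ℕ, ℝ), ‖T (WithLp.toLp 1 (a, b))‖ = ‖a‖ + ‖b‖ := fun a b => by
      rw [T.norm_map, WithLp.prod_norm_eq_of_L1]; rfl
    have c1 : ∀ n, ‖c n‖ ≤ 1 := fun n => c_le _ fun k => by
      rw [c_apply]; split_ifs <;> simp
    refine core (T (WithLp.toLp 1 (c 0, 0))) (T (WithLp.toLp 1 (0, c 0)))
      (fun n => T (WithLp.toLp 1 (0, c (n + 1)))) (fun n => T (WithLp.toLp 1 (c (n + 1), 0)))
      (by simp [nn, c1]) (by simp [nn, c1]) (fun n => by simp [nn, c1])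
      (fun n => by simp [nn, c1]) fun i j hij => ?_
    simp only [← map_sub, ← map_add, ← WithLp.toLp_sub, ← WithLp.toLp_add, Prod.mk_sub_mk,
      Prod.mk_add_mk, nn, sub_self, norm_zero, add_zero, zero_add]
    have d1 : ‖c (i + 1) - c (j + 1)‖ ≤ 1 := c_le _ fun k => by
      simp only [ZeroAtInftyContinuousMap.coe_sub, Pi.sub_apply, c_apply]
      split_ifs <;> simp
    have d2 : ‖c 0 + (c (i + 1) - c (j + 1))‖ ≤ 1 := c_le _ fun k => by
      simp only [ZeroAtInftyContinuousMap.coe_sub, ZeroAtInftyContinuousMap.coe_add, Pi.sub_apply,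
        Pi.add_apply, c_apply]
      split_ifs <;> first | omega | simp
    have d3 : 1 ≤ ‖c 0‖ := by simpa [c_apply] using c_ge (c 0) 0
    have d4 : 1 ≤ ‖c (i + 1) - c (j + 1)‖ := by
      simpa [c_apply, hij] using c_ge (c (i + 1) - c (j + 1)) (i + 1)
    exact ⟨d1, d1, by linarith, by linarith, d2, d2⟩

end Pool.Agent.Results.MP_adcce9_an.NoCopy
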